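import Mathlib
import Pool.Agent.Results.MP_337ab5_co.GameConventionOne
import Pool.Agent.J4H88.PG.Main

set_option autoImplicit false

/-!
# The permutation-building game for generating the symmetric group, Convention II

The definitions of the game are those of the file `GameConventionOne`. Indices start from `0`.

For `N = 4 k + 1 ≥ 5` player B wins by closing a cycle at each turn: at the position `p` of the
current word player B plays the value `s` such that `s → ⋯ → p` is a path of the filled part. Then
every position of player B is the greatest element of its cycle. So `σ` and `τ` have both at least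
`(N + 1) / 2` cycles. If they generate a transitive group, then they have together at most `N + 1`
cycles; hence both have exactly `(N + 1) / 2` cycles, and both are even.

For `N = 4 k + 3` player A can force that the group is transitive and contains an odd permutation:
in the first word A never closes a cycle before the last entry, and in the second word A joins two
components whenever this is possible. If `σ` is even then there are at most `2 k + 1` components at
the start, so that the last free choice is not needed for the transitivity and A makes `τ` odd.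
-/

namespace Pool.Agent.Results.MP_337ab5_co.ConventionTwo

open Equiv Pool.Agent.Results.MP_337ab5_co.GameConventionOne Pool.Agent.J4H88.PG

/-- `σ` and `τ` generate a transitive group which contains an odd permutation -/
def TransitiveOdd (N : ℕ) (σ τ : Perm (Fin N)) : Prop :=
  (∀ x y, ∃ g ∈ Subgroup.closure {σ, τ}, g x = y) ∧
    ¬ Subgroup.closure {σ, τ} ≤ alternatingGroup (Fin N)

/-! ### `N = 4 k + 1` -/

theorem one_mod_four {N k : ℕ} (hN : N = 4 * k + 1) :
    HasWinningStrategy N (fun j => ¬ turnII j) fun σ τ => ¬ TransitiveOdd N σ τ := by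
  refine ⟨strat ⟨0, by omega⟩, ?_, ?_⟩
  · intro σ τ m hm ht hf i hi hmi hcon
    obtain ⟨π, h1, h2⟩ := strat_spec (⟨0, by omega⟩ : Fin N) σ τ m hm
    obtain ⟨l, hl, hl2⟩ := entry_cur σ τ m i hm hi hmi
    rw [h2, hl2, ← h1 l hl] at hcon
    exact cl_ne π _ ⟨l, hl.trans (widx_lt hm)⟩ hl hcon
  · rintro σ τ hf ⟨hw, hodd⟩
    have hσ : 2 * k + 1 ≤ (lab σ).card := by
      apply le_card_lab (fun i : Fin (2 * k + 1) =>
        (⟨min (2 * i + 1) (N - 1), by omega⟩ : Fin N))
      · intro i j hij
        have h1 := Fin.mk.inj hij
        have := i.2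
        have := j.2
        apply Fin.ext
        omega
      · intro i x hx
        rcases Nat.lt_or_ge (i : ℕ) (2 * k) with hi | hi
        · have h0 : min (2 * (i : ℕ) + 1) (N - 1) = 2 * i + 1 := by omega
          have hm : 2 * (i : ℕ) + 1 < 2 * N := by omega
          have hwi : widx N (2 * (i : ℕ) + 1) = 2 * i + 1 := by
            unfold widx
            rw [if_pos (by omega)]
          have hcu : cur σ τ (2 * (i : ℕ) + 1) = σ := by
            unfold cur
            rw [if_pos (by omega)]
          have h1 := hf (2 * (i : ℕ) + 1) hm hm (by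
            show ¬ Even (2 * (i : ℕ) + 1)
            rw [Nat.not_even_iff_odd]
            exact ⟨i, rfl⟩)
          have h2 := strat_max _ σ τ _ hm h1
          simp only [hwi, hcu] at h2
          simp only [h0] at hx ⊢
          exact h2 x hx
        · have h0 : min (2 * (i : ℕ) + 1) (N - 1) = N - 1 := by omega
          rw [Fin.le_def]
          simp only [h0]
          have := x.2
          omega
    have hτ : 2 * k + 1 ≤ (lab τ).card := by
      apply le_card_lab (fun i : Fin (2 * k + 1) => (⟨2 * i, by omega⟩ : Fin N))
      · intro i j hij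
        have h1 := Fin.mk.inj hij
        apply Fin.ext
        omega
      · intro i x hx
        have hi := i.2
        have hm : N + 2 * (i : ℕ) < 2 * N := by omega
        have hwi : widx N (N + 2 * (i : ℕ)) = 2 * i := by
          unfold widx
          rw [if_neg (by omega)]
          omega
        have hcu : cur σ τ (N + 2 * (i : ℕ)) = τ := by
          unfold cur
          rw [if_neg (by omega)]
        have h1 := hf (N + 2 * (i : ℕ)) hm hm (by
          show ¬ Even (N + 2 * (i : ℕ))
          rw [Nat.not_even_iff_odd]
          exact ⟨2 * k + i, by omega⟩)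
        have h2 := strat_max _ σ τ _ hm h1
        simp only [hwi, hcu] at h2
        exact h2 x hx
    have hle := card_add_card_le (by omega) hw
    have hσ1 : Perm.sign σ = 1 := sign_eq_one hN (by omega)
    have hτ1 : Perm.sign τ = 1 := sign_eq_one hN (by omega)
    apply hodd
    rw [Subgroup.closure_le]
    rintro x (rfl | hx)
    · exact hσ1
    · rw [Set.mem_singleton_iff] at hx
      rw [hx]
      exact hτ1

theorem transitiveOdd_of_winA {N : ℕ} (hN : 2 ≤ N) {σ τ : Perm (Fin N)} (h : winA N σ τ) :
    TransitiveOdd N σ τ := by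
  unfold winA at h
  unfold TransitiveOdd
  rw [h]
  refine ⟨fun x y => ⟨swap x y, Subgroup.mem_top _, swap_apply_left x y⟩, fun hle => ?_⟩
  have h1 : swap (⟨0, by omega⟩ : Fin N) ⟨1, by omega⟩ ∈ alternatingGroup (Fin N) :=
    hle (Subgroup.mem_top _)
  rw [Perm.mem_alternatingGroup, Perm.sign_swap (by
    intro h3
    rw [Fin.mk.injEq] at h3
    omega)] at h1
  exact absurd h1 (by decide)

theorem mono {N : ℕ} {turn : ℕ → Prop} {w w' : Perm (Fin N) → Perm (Fin N) → Prop}
    (h : ∀ σ τ, w σ τ → w' σ τ) (hs : HasWinningStrategy N turn w) :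
    HasWinningStrategy N turn w' := by
  obtain ⟨S, h1, h2⟩ := hs
  exact ⟨S, h1, fun σ τ hf => h σ τ (h2 σ τ hf)⟩

/-! ### `N = 1` and `N = 3` -/

theorem one_case : HasWinningStrategy 1 turnII (winA 1) := by
  refine ⟨fun _ => 0, ?_, ?_⟩
  · intro σ τ m hm ht hf i hi hmi
    exfalso
    obtain ⟨r, hr⟩ := ht
    omega
  · intro σ τ hf
    unfold winA
    rw [Subgroup.eq_top_iff']
    intro π
    have : π = 1 := Subsingleton.elim _ _
    rw [this]
    exact Subgroup.one_mem _

/-- the strategy of player A for `N = 3` -/
def strat3 : List (Fin 3) → Fin 3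
  | [] => 1
  | [a, b] => -(a + b)
  | [_, b, _, v] => if b = 0 then (if v = 2 then 0 else 2) else v + 2
  | _ => 0

theorem gen3 : ∀ σ τ π : Perm (Fin 3), σ 0 = 1 →
    τ 1 = (if σ 1 = 0 then (if τ 0 = 2 then 0 else 2) else τ 0 + 2) →
    π = 1 ∨ π = σ ∨ π = τ ∨ π = σ * τ ∨ π = τ * σ ∨ π = σ * σ ∨ π = τ * τ ∨ π = σ * τ * σ := by
  decide

theorem legal3 : ∀ b v : Fin 3, (if b = 0 then (if v = 2 then 0 else 2) else v + 2) ≠ v := by
  decide

theorem third3 : ∀ a b : Fin 3, a ≠ b → -(a + b) ≠ a ∧ -(a + b) ≠ b := by
  decide

theorem three_case : HasWinningStrategy 3 turnII (winA 3) := by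
  refine ⟨strat3, ?_, ?_⟩
  · intro σ τ m hm ht hf i hi hmi
    obtain ⟨r, hr⟩ := ht
    have h3 : m = 0 ∨ m = 2 ∨ m = 4 := by omega
    rcases h3 with rfl | rfl | rfl
    · omega
    · have h1 : strat3 (history σ τ 2 hm.le) = -(σ 0 + σ 1) := rfl
      rw [h1]
      have h2 : σ 0 ≠ σ 1 := fun h => absurd (σ.injective h) (by decide)
      have h3 := third3 _ _ h2
      have h4 : i = 0 ∨ i = 1 := by omega
      rcases h4 with rfl | rfl
      · exact h3.1
      · exact h3.2
    · have h4 : i = 3 := by omega
      subst h4
      exact legal3 (σ 1) (τ 0)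
  · intro σ τ hf
    have h0 : σ 0 = 1 := hf 0 (by norm_num) (by norm_num) ⟨0, rfl⟩
    have h4 : τ 1 = (if σ 1 = 0 then (if τ 0 = 2 then 0 else 2) else τ 0 + 2) :=
      hf 4 (by norm_num) (by norm_num) ⟨2, rfl⟩
    unfold winA
    rw [Subgroup.eq_top_iff']
    intro π
    have hs : σ ∈ Subgroup.closure {σ, τ} := Subgroup.subset_closure (by simp)
    have ht : τ ∈ Subgroup.closure {σ, τ} := Subgroup.subset_closure (by simp)
    rcases gen3 σ τ π h0 h4 with h | h | h | h | h | h | h | h
    · rw [h]; exact Subgroup.one_mem _
    · rw [h]; exact hs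
    · rw [h]; exact ht
    · rw [h]; exact Subgroup.mul_mem _ hs ht
    · rw [h]; exact Subgroup.mul_mem _ ht hs
    · rw [h]; exact Subgroup.mul_mem _ hs hs
    · rw [h]; exact Subgroup.mul_mem _ ht ht
    · rw [h]; exact Subgroup.mul_mem _ (Subgroup.mul_mem _ hs ht) hs

/-- **The game under Convention II.** (1) Player A has a winning strategy for `N = 1, 2, 3`.
(2) Player B has a winning strategy for all `N ≥ 4` with `N % 4 ≠ 3`. (3) For all `N = 4 k + 3`
player A can force that `σ` and `τ` generate a transitive group with an odd permutation. (4) For all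
`N = 4 k + 1` player B can prevent this. -/
theorem result (N : ℕ) (hN : 1 ≤ N) :
    (N ≤ 3 → HasWinningStrategy N turnII (winA N)) ∧
    (4 ≤ N → N % 4 ≠ 3 →
      HasWinningStrategy N (fun j => ¬ turnII j) fun σ τ => ¬ winA N σ τ) ∧
    (N % 4 = 3 → HasWinningStrategy N turnII (TransitiveOdd N)) ∧
    (N % 4 = 1 →
      HasWinningStrategy N (fun j => ¬ turnII j) fun σ τ => ¬ TransitiveOdd N σ τ) := by
  refine ⟨?_, ?_, ?_, ?_⟩
  · intro h
    have h1 : N = 1 ∨ N = 2 ∨ N = 3 := by omega
    rcases h1 with rfl | rfl | rfl
    · exact one_case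
    · exact ((GameConventionOne.result 2 (by norm_num)).2.2 (by decide)).1 le_rfl
    · exact three_case
  · intro h4 h3
    rcases Nat.even_or_odd N with h | ⟨r, hr⟩
    · exact ((GameConventionOne.result N hN).2.2 h).2 (by omega)
    · exact mono (fun σ τ h5 h6 => h5 (transitiveOdd_of_winA (by omega) h6))
        (one_mod_four (k := N / 4) (by omega))
  · intro h3
    exact force (k := N / 4) (by omega)
  · intro h1
    exact one_mod_four (k := N / 4) (by omega)

end Pool.Agent.Results.MP_337ab5_co.ConventionTwo
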